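import Pool.Agent.H21.ExpPairAlt

set_option autoImplicit false

namespace Pool.Agent.Results.MP_493793_nt.AlternatingSigns

open Real

/-- The sign pattern `+, +, -, +, -, ...` of the derivatives of order `0, 1, 2, 3, 4, ...`
(the pattern of `x ^ α`, `0 < α < 1`). -/
def sgn (j : ℕ) : ℝ := if j = 0 then 1 else (-1) ^ (j + 1)

/-- `f` is admissible at scale `N` with parameter `F ≥ N`, for the constants `c j, C j`, and its
derivatives have the alternating sign pattern `sgn`: `f` is smooth on `[N, 2N]` and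
`c_j F N^(-j) ≤ sgn j * f^(j)(x) ≤ C_j F N^(-j)` for every `j ≥ 0` and `x ∈ [N, 2N]`. -/
def AltAdmissible (c C : ℕ → ℝ) (N F : ℝ) (f : ℝ → ℝ) : Prop :=
  N ≤ F ∧ ContDiffOn ℝ (⊤ : ℕ∞) f (Set.Icc N (2 * N)) ∧
    ∀ j : ℕ, ∀ x ∈ Set.Icc N (2 * N),
      c j * F / N ^ j ≤ sgn j * iteratedDerivWithin j f (Set.Icc N (2 * N)) x ∧
      sgn j * iteratedDerivWithin j f (Set.Icc N (2 * N)) x ≤ C j * F / N ^ j

/-- `(p, q)` is an exponent pair for the phases whose derivatives alternate in sign: for every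
choice of positive constants `c j, C j` and every `ε > 0` there is a constant `K` with
`|∑_{N ≤ n ≤ N'} e(f(n))| ≤ K F^p N^(q - p + 1/2) F^ε` for all `2 ≤ N ≤ N' ≤ 2N` and all `f`
which are `AltAdmissible` at scale `N` with parameter `F`. -/
def IsAltExponentPair (p q : ℝ) : Prop :=
  ∀ ε : ℝ, 0 < ε → ∀ c C : ℕ → ℝ, (∀ j, 0 < c j) → (∀ j, 0 < C j) →
    ∃ K : ℝ, ∀ N N' F : ℝ, ∀ f : ℝ → ℝ, 2 ≤ N → N ≤ N' → N' ≤ 2 * N →
      AltAdmissible c C N F f →
      ‖∑ n ∈ Finset.Icc ⌈N⌉₊ ⌊N'⌋₊,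
          Complex.exp (2 * (Real.pi : ℂ) * Complex.I * ((f (n : ℝ) : ℝ) : ℂ))‖
        ≤ K * F ^ p * N ^ (q - p + 1 / 2) * F ^ ε

/-- Admissibility exactly as in the problem (no condition on the signs). -/
def Admissible (c C : ℕ → ℝ) (N F : ℝ) (f : ℝ → ℝ) : Prop :=
  N ≤ F ∧ ContDiffOn ℝ (⊤ : ℕ∞) f (Set.Icc N (2 * N)) ∧
    ∀ j : ℕ, ∀ x ∈ Set.Icc N (2 * N),
      c j * F / N ^ j ≤ |iteratedDerivWithin j f (Set.Icc N (2 * N)) x| ∧
      |iteratedDerivWithin j f (Set.Icc N (2 * N)) x| ≤ C j * F / N ^ j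

lemma abs_sgn (j : ℕ) : |sgn j| = 1 := by
  unfold sgn
  split_ifs
  · simp
  · rw [abs_pow]; simp

/-- Phases admissible in the sense of this file are admissible in the sense of the problem
(if the constants `c j` are positive), so exponent pairs of the problem are
exponent pairs in the sense of this file. -/
lemma AltAdmissible.admissible {c C : ℕ → ℝ} (hc : ∀ j, 0 < c j) {N F : ℝ} {f : ℝ → ℝ}
    (hN : 0 < N) (h : AltAdmissible c C N F f) : Admissible c C N F f := by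
  refine ⟨h.1, h.2.1, fun j x hx => ?_⟩
  obtain ⟨h1, h2⟩ := h.2.2 j x hx
  have h0 : 0 < sgn j * iteratedDerivWithin j f (Set.Icc N (2 * N)) x := by
    have hF : 0 < F := lt_of_lt_of_le hN h.1
    have : 0 < c j * F / N ^ j := div_pos (mul_pos (hc j) hF) (pow_pos hN j)
    linarith
  have h3 : |iteratedDerivWithin j f (Set.Icc N (2 * N)) x| =
      sgn j * iteratedDerivWithin j f (Set.Icc N (2 * N)) x := by
    rw [← abs_of_pos h0, abs_mul, abs_sgn, one_mul]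
  rw [h3]
  exact ⟨h1, h2⟩

lemma T_bounds (A : ℝ) (hA : 1 ≤ A) (x : ℝ) (hx : x ∈ Set.Icc (3 * A ^ 2) (2 * (3 * A ^ 2))) :
    A / 2 ≤ Pool.Agent.H21.T x ∧ Pool.Agent.H21.T x ≤ (71 / 100) * A := by
  constructor
  · have h : Pool.Agent.H21.T (12 * (A / 2) ^ 2) ≤ Pool.Agent.H21.T x :=
      Pool.Agent.H21.T_mono (by have := hx.1; nlinarith)
    rwa [Pool.Agent.H21.T_of_sq (by positivity)] at h
  · have h : Pool.Agent.H21.T x ≤ Pool.Agent.H21.T (12 * ((71 / 100) * A) ^ 2) :=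
      Pool.Agent.H21.T_mono (by have := hx.2; nlinarith)
    rwa [Pool.Agent.H21.T_of_sq (by positivity)] at h

/-- the lower and upper constants -/
noncomputable def cc (j : ℕ) : ℝ :=
  if j = 0 then 1 / 2 else if j = 1 then 1 / 2 else Pool.Agent.H21.Dj j / 2 ^ j

/-- the lower and upper constants -/
noncomputable def CC (j : ℕ) : ℝ :=
  if j = 0 then 6 else if j = 1 then 3 else 4 * Pool.Agent.H21.Dj j

lemma cc_pos (j : ℕ) : 0 < cc j := by
  unfold cc
  have := Pool.Agent.H21.Dj_pos j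
  split_ifs <;> positivity

lemma CC_pos (j : ℕ) : 0 < CC j := by
  unfold CC
  have := Pool.Agent.H21.Dj_pos j
  split_ifs <;> positivity

lemma fal_adm (A : ℝ) (hA : 3 ≤ A) :
    AltAdmissible cc CC (3 * A ^ 2) (A ^ 3) (Pool.Agent.H21.fal A) := by
  have hN0 : 0 < 3 * A ^ 2 := by positivity
  have hfN : Pool.Agent.H21.fph (3 * A ^ 2) = A ^ 3 := by
    rw [Pool.Agent.H21.fph_eq_g hN0.le]
    unfold Pool.Agent.H21.g
    rw [show 3 * A ^ 2 = 12 * (A / 2) ^ 2 by ring, Pool.Agent.H21.T_of_sq (by positivity)]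
    ring
  refine ⟨by nlinarith [sq_nonneg A], Pool.Agent.H21.contDiffOn_fal hN0 A, ?_⟩
  intro j x hx
  have hx0 : 0 < x := lt_of_lt_of_le hN0 hx.1
  obtain ⟨hT1, hT2⟩ := T_bounds A (by linarith) x hx
  have hTsq := Pool.Agent.H21.T_sq hx0.le
  rw [Pool.Agent.H21.iter_fal hN0 (by linarith) hx]
  rcases Nat.lt_or_ge j 2 with hj | hj
  · interval_cases j
    · -- order zero
      have e : Pool.Agent.H21.kap * ((descPochhammer ℝ 0).eval (3 / 2 : ℝ) *
          x ^ ((3 / 2 : ℝ) - ((0 : ℕ) : ℝ))) = 8 * Pool.Agent.H21.T x ^ 3 := by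
        have h1 := Pool.Agent.H21.fph_eq_g hx0.le
        unfold Pool.Agent.H21.fph Pool.Agent.H21.g at h1
        rw [← h1]; simp
      rw [e]
      simp only [cc, CC, sgn, if_true, pow_zero, div_one]
      have hx12 : x = 12 * Pool.Agent.H21.T x ^ 2 := by linarith
      have h3 : A * x - 8 * Pool.Agent.H21.T x ^ 3 =
          4 * Pool.Agent.H21.T x ^ 2 * (3 * A - 2 * Pool.Agent.H21.T x) := by
        calc A * x - 8 * Pool.Agent.H21.T x ^ 3
            = A * (12 * Pool.Agent.H21.T x ^ 2) - 8 * Pool.Agent.H21.T x ^ 3 := by rw [← hx12]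
          _ = _ := by ring
      have hT2sq : (A / 2) ^ 2 ≤ Pool.Agent.H21.T x ^ 2 := pow_le_pow_left₀ (by linarith) hT1 2
      have hTsq2 : Pool.Agent.H21.T x ^ 2 ≤ A ^ 2 / 2 := by
        rw [hTsq]; have := hx.2; linarith
      constructor
      · rw [h3, one_mul]
        have h4 : A ≤ 3 * A - 2 * Pool.Agent.H21.T x := by linarith
        have h5 : 4 * (A / 2) ^ 2 * A ≤
            4 * Pool.Agent.H21.T x ^ 2 * (3 * A - 2 * Pool.Agent.H21.T x) :=
          mul_le_mul (by linarith) h4 (by linarith) (by positivity)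
        nlinarith [pow_pos (by linarith : 0 < A) 3]
      · rw [one_mul]
        have h4 : 0 ≤ 8 * Pool.Agent.H21.T x ^ 3 := by
          have := Pool.Agent.H21.T_nonneg x; positivity
        have h5 : A * x ≤ A * (2 * (3 * A ^ 2)) := mul_le_mul_of_nonneg_left hx.2 (by linarith)
        nlinarith
    · -- order one
      have e : Pool.Agent.H21.kap * ((descPochhammer ℝ 1).eval (3 / 2 : ℝ) *
          x ^ ((3 / 2 : ℝ) - ((1 : ℕ) : ℝ))) = Pool.Agent.H21.T x := by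
        unfold Pool.Agent.H21.kap Pool.Agent.H21.T
        rw [Real.sqrt_div' x (by norm_num : (0 : ℝ) ≤ 12), Real.sqrt_eq_rpow, Real.sqrt_eq_rpow]
        have h2 : (12 : ℝ) ^ (3 / 2 : ℝ) = 12 * (12 : ℝ) ^ (1 / 2 : ℝ) := by
          rw [show (3 / 2 : ℝ) = 1 + 1 / 2 by norm_num, Real.rpow_add (by norm_num), Real.rpow_one]
        rw [h2]
        simp only [descPochhammer_one, Polynomial.eval_X, Nat.cast_one]
        rw [show (3 / 2 : ℝ) - 1 = 1 / 2 by norm_num]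
        have h3 : (12 : ℝ) ^ (1 / 2 : ℝ) ≠ 0 := by positivity
        field_simp
        norm_num
      rw [e]
      have e2 : A ^ 3 / (3 * A ^ 2) ^ 1 = A / 3 := by field_simp
      simp only [cc, CC, sgn, if_true, if_neg one_ne_zero]
      rw [mul_div_assoc, mul_div_assoc, e2]
      constructor
      · norm_num; linarith
      · norm_num; have := Pool.Agent.H21.T_nonneg x; linarith
  · -- order at least two
    have hadm := Pool.Agent.H21.adm (3 * A ^ 2) hN0 j x hx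
    rw [Pool.Agent.H21.iter_fph hN0 (by linarith) hx, hfN] at hadm
    have hsg := Pool.Agent.H21.desc_sign j hj
    have hk := Pool.Agent.H21.kap_pos
    have hxp : 0 < x ^ ((3 / 2 : ℝ) - j) := Real.rpow_pos_of_pos hx0 _
    have hj0 : j ≠ 0 := by omega
    have hj1 : j ≠ 1 := by omega
    have key : sgn j * ((if j = 0 then A * x else if j = 1 then A else 0) -
        Pool.Agent.H21.kap * ((descPochhammer ℝ j).eval (3 / 2 : ℝ) * x ^ ((3 / 2 : ℝ) - j))) =
        |Pool.Agent.H21.kap * ((descPochhammer ℝ j).eval (3 / 2 : ℝ) * x ^ ((3 / 2 : ℝ) - j))| := by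
      rw [if_neg hj0, if_neg hj1]
      unfold sgn
      rw [if_neg hj0]
      rw [abs_mul, abs_mul, abs_of_pos hk, abs_of_pos hxp]
      have h1 : |(descPochhammer ℝ j).eval (3 / 2 : ℝ)| =
          (-1 : ℝ) ^ j * (descPochhammer ℝ j).eval (3 / 2 : ℝ) := by
        have h2 : |(-1 : ℝ) ^ j * (descPochhammer ℝ j).eval (3 / 2 : ℝ)| =
          |(descPochhammer ℝ j).eval (3 / 2 : ℝ)| := by
          rw [abs_mul, abs_pow]; simp
        rw [← h2, abs_of_pos hsg]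
      rw [h1]; ring
    rw [key]
    simp only [cc, CC, if_neg hj0, if_neg hj1]
    exact hadm

/-- Every exponent pair `(p, q)` for the phases with alternating derivatives
satisfies `p + 2 q ≥ 1/2`. -/
theorem result (p q : ℝ) (h : IsAltExponentPair p q) : 1 / 2 ≤ p + 2 * q := by
  by_contra hcon
  push Not at hcon
  set δ : ℝ := 1 / 2 - p - 2 * q with hδ
  have hδ0 : 0 < δ := by rw [hδ]; linarith
  obtain ⟨K, hK⟩ := h (δ / 6) (by positivity) cc CC cc_pos CC_pos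
  set K₁ : ℝ := |K| * (3 : ℝ) ^ (q - p + 1 / 2) with hK1
  have hK1nn : 0 ≤ K₁ := by rw [hK1]; positivity
  -- pick a large `j`
  have htend : Filter.Tendsto (fun j : ℕ => ((50 : ℝ) * (j : ℝ) ^ 2 + 1) ^ (δ / 2))
      Filter.atTop Filter.atTop := by
    apply (tendsto_rpow_atTop (by positivity : 0 < δ / 2)).comp
    apply Filter.tendsto_atTop_mono _ (tendsto_natCast_atTop_atTop (R := ℝ))
    intro j
    rcases Nat.eq_zero_or_pos j with h0 | h0
    · subst h0; norm_num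
    · have : (1 : ℝ) ≤ j := by exact_mod_cast h0
      nlinarith
  obtain ⟨j, hj8, hjK⟩ := ((Filter.eventually_ge_atTop 8).and
    (htend.eventually_gt_atTop (K₁ * 51 ^ (3 / 2 : ℝ)))).exists
  set A : ℝ := 50 * (j : ℝ) ^ 2 + 1 with hA
  have hj8R : (8 : ℝ) ≤ j := by exact_mod_cast hj8
  have hA1 : 1 ≤ A := by rw [hA]; nlinarith [sq_nonneg (j : ℝ)]
  have hA0 : 0 < A := by linarith
  have hA3 : 3 ≤ A := by rw [hA]; nlinarith
  have hAnat : A = ((50 * j ^ 2 + 1 : ℕ) : ℝ) := by rw [hA]; push_cast; ring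
  have hmain := Pool.Agent.H21.main_lower' j hj8
  rw [← hA] at hmain
  -- the sum for `A x - (x/3)^(3/2)` is the complex conjugate
  have hconj : ∀ a b : ℕ, ‖∑ n ∈ Finset.Icc a b, Complex.exp (2 * (Real.pi : ℂ) * Complex.I *
        ((Pool.Agent.H21.fal A (n : ℝ) : ℝ) : ℂ))‖ =
      ‖∑ n ∈ Finset.Icc a b, Complex.exp (2 * (Real.pi : ℂ) * Complex.I *
        ((Pool.Agent.H21.fph (n : ℝ) : ℝ) : ℂ))‖ := by
    intro a b
    rw [← Complex.norm_conj (∑ n ∈ Finset.Icc a b, Complex.exp (2 * (Real.pi : ℂ) * Complex.I *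
        ((Pool.Agent.H21.fph (n : ℝ) : ℝ) : ℂ))), map_sum]
    congr 1
    apply Finset.sum_congr rfl
    intro n _
    rw [← Complex.exp_conj]
    simp only [map_mul, Complex.conj_ofReal, Complex.conj_I, map_ofNat]
    unfold Pool.Agent.H21.fal
    have : 2 * (Real.pi : ℂ) * Complex.I *
        ((A * (n : ℝ) - Pool.Agent.H21.fph (n : ℝ) : ℝ) : ℂ) =
        2 * (Real.pi : ℂ) * (-Complex.I) * ((Pool.Agent.H21.fph (n : ℝ) : ℝ) : ℂ) +
        (((50 * j ^ 2 + 1) * n : ℕ) : ℂ) * (2 * Real.pi * Complex.I) := by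
      rw [hAnat]; push_cast; ring
    rw [this, Complex.exp_add, Complex.exp_nat_mul, Complex.exp_two_pi_mul_I, one_pow, mul_one]
  set N : ℝ := 3 * A ^ 2 with hN
  have hN0 : 0 < N := by positivity
  have hb := hK N (3 * (70 * (j : ℝ) ^ 2 + 1) ^ 2) (A ^ 3) (Pool.Agent.H21.fal A)
    (by rw [hN]; nlinarith)
    (by rw [hN, hA]
        have h1 : (0 : ℝ) ≤ 50 * (j : ℝ) ^ 2 + 1 := by positivity
        have h2 : 50 * (j : ℝ) ^ 2 + 1 ≤ 70 * (j : ℝ) ^ 2 + 1 := by nlinarith [sq_nonneg (j : ℝ)]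
        have h3 := pow_le_pow_left₀ h1 h2 2
        linarith)
    (by rw [hN, hA]
        nlinarith [sq_nonneg (j : ℝ), sq_nonneg ((j : ℝ) ^ 2)])
    (fal_adm A hA3)
  rw [hconj] at hb
  -- size of the right-hand side
  have e1 : (A ^ 3) ^ p = A ^ (3 * p) := by
    rw [← Real.rpow_natCast A 3, ← Real.rpow_mul hA0.le]; norm_num
  have e2 : (A ^ 3) ^ (δ / 6) = A ^ (δ / 2) := by
    rw [← Real.rpow_natCast A 3, ← Real.rpow_mul hA0.le]; congr 1; push_cast; ring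
  have e3 : N ^ (q - p + 1 / 2) = (3 : ℝ) ^ (q - p + 1 / 2) * A ^ (2 * (q - p + 1 / 2)) := by
    rw [hN, Real.mul_rpow (by norm_num) (by positivity), ← Real.rpow_natCast A 2,
      ← Real.rpow_mul hA0.le]; norm_num
  have hrhs : K * (A ^ 3) ^ p * N ^ (q - p + 1 / 2) * (A ^ 3) ^ (δ / 6) ≤
      K₁ * A ^ (3 / 2 - δ / 2) := by
    rw [e1, e2, e3]
    have e4 : A ^ (3 / 2 - δ / 2) = A ^ (3 * p) * A ^ (2 * (q - p + 1 / 2)) * A ^ (δ / 2) := by
      rw [← Real.rpow_add hA0, ← Real.rpow_add hA0]; congr 1; rw [hδ]; ring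
    rw [e4, hK1]
    have hKle : K ≤ |K| := le_abs_self K
    have hpos : 0 ≤ A ^ (3 * p) * ((3 : ℝ) ^ (q - p + 1 / 2) * A ^ (2 * (q - p + 1 / 2))) *
        A ^ (δ / 2) := by positivity
    calc K * A ^ (3 * p) * ((3 : ℝ) ^ (q - p + 1 / 2) * A ^ (2 * (q - p + 1 / 2))) * A ^ (δ / 2)
        = K * (A ^ (3 * p) * ((3 : ℝ) ^ (q - p + 1 / 2) * A ^ (2 * (q - p + 1 / 2))) *
            A ^ (δ / 2)) := by ring
      _ ≤ |K| * (A ^ (3 * p) * ((3 : ℝ) ^ (q - p + 1 / 2) * A ^ (2 * (q - p + 1 / 2))) *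
            A ^ (δ / 2)) := mul_le_mul_of_nonneg_right hKle hpos
      _ = _ := by ring
  have hlow : A ^ (3 / 2 : ℝ) / 51 ^ (3 / 2 : ℝ) ≤ (j : ℝ) ^ 3 := by
    rw [← Real.div_rpow hA0.le (by norm_num)]
    have h1 : A / 51 ≤ (j : ℝ) ^ 2 := by rw [hA]; nlinarith
    calc (A / 51) ^ (3 / 2 : ℝ) ≤ ((j : ℝ) ^ 2) ^ (3 / 2 : ℝ) :=
          Real.rpow_le_rpow (by positivity) h1 (by norm_num)
      _ = (j : ℝ) ^ 3 := by
          rw [← Real.rpow_natCast (j : ℝ) 2, ← Real.rpow_mul (by positivity)]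
          norm_num
  have hj3 : (1 : ℝ) ≤ (j : ℝ) ^ 3 := one_le_pow₀ (by linarith)
  have h1 : A ^ (3 / 2 : ℝ) / 51 ^ (3 / 2 : ℝ) ≤ K₁ * A ^ (3 / 2 - δ / 2) := by linarith
  have h2 : A ^ (3 / 2 : ℝ) = A ^ (δ / 2) * A ^ (3 / 2 - δ / 2) := by
    rw [← Real.rpow_add hA0]; congr 1; ring
  rw [h2, div_le_iff₀ (by positivity)] at h1
  have h3 : 0 < A ^ (3 / 2 - δ / 2) := by positivity
  have h4 : A ^ (δ / 2) * A ^ (3 / 2 - δ / 2) ≤
      (K₁ * 51 ^ (3 / 2 : ℝ)) * A ^ (3 / 2 - δ / 2) := by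
    calc A ^ (δ / 2) * A ^ (3 / 2 - δ / 2) ≤ K₁ * A ^ (3 / 2 - δ / 2) * 51 ^ (3 / 2 : ℝ) := h1
      _ = _ := by ring
  have h5 := le_of_mul_le_mul_right h4 h3
  linarith

end Pool.Agent.Results.MP_493793_nt.AlternatingSigns
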