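import Pool.Agent.H39.FD.Fin

set_option autoImplicit false

namespace Pool.Agent.Results.MP_493793_nt.FixedDerivativeOrder

/-- `e(x) = exp(2 π i x)`. -/
noncomputable def e (x : ℝ) : ℂ := Complex.exp (2 * (Real.pi : ℂ) * Complex.I * ((x : ℝ) : ℂ))

/-- The rising factorial `(σ)_j = σ (σ + 1) ⋯ (σ + j - 1)`. -/
noncomputable def rising (σ : ℝ) (j : ℕ) : ℝ := ∏ i ∈ Finset.range j, (σ + i)

/-- The class `F(N, P, σ, y, c)` of Graham and Kolesnik, restricted to smooth functions on the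
whole of `[N, 2N]`: for `0 ≤ j < P` the derivative of order `j + 1` of `f` differs from the
`j`-th derivative `(-1)^j (σ)_j y x^(-σ-j)` of `y x^(-σ)` by less than `c (σ)_j y x^(-σ-j)`. -/
def GKClass (N : ℝ) (P : ℕ) (σ y c : ℝ) (f : ℝ → ℝ) : Prop :=
  ContDiffOn ℝ (⊤ : ℕ∞) f (Set.Icc N (2 * N)) ∧
    ∀ j < P, ∀ x ∈ Set.Icc N (2 * N),
      |iteratedDerivWithin (j + 1) f (Set.Icc N (2 * N)) x -
          (-1) ^ j * rising σ j * y * x ^ (-σ - j)| <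
        c * (rising σ j * y * x ^ (-σ - j))

/-- `(p, q)` is an exponent pair (in the normalisation of the problem, with `F = y N^(1-σ)`) for
the classes `F(N, P, σ, y, c)` with `σ`, `P`, `c` fixed: for every `ε > 0` there is `K` with
`|∑_{N ≤ n ≤ N'} e(f(n))| ≤ K F^p N^(q - p + 1/2) F^ε` for all `2 ≤ N ≤ N' ≤ 2N`, all `y` with
`F = y N^(1-σ) ≥ N` and all `f` in `F(N, P, σ, y, c)`. -/
def IsPairFor (σ : ℝ) (P : ℕ) (c p q : ℝ) : Prop :=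
  ∀ ε : ℝ, 0 < ε → ∃ K : ℝ, ∀ N N' y : ℝ, ∀ f : ℝ → ℝ, 2 ≤ N → N ≤ N' → N' ≤ 2 * N →
    N ≤ y * N ^ (1 - σ) → GKClass N P σ y c f →
      ‖∑ n ∈ Finset.Icc ⌈N⌉₊ ⌊N'⌋₊, e (f (n : ℝ))‖
        ≤ K * (y * N ^ (1 - σ)) ^ p * N ^ (q - p + 1 / 2) * (y * N ^ (1 - σ)) ^ ε

/-- Exponent pairs of the Graham - Kolesnik classes with `P` controlled derivatives: four
necessary inequalities for every `P ≥ 2`, which are sufficient if `c < 1` and `P ≤ 3` or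
`p ≤ 1 / (2^P - 2)`. -/
theorem result (σ : ℝ) (P : ℕ) (hσ : 0 < σ) (hP : 2 ≤ P) (c : ℝ) (hc : 0 < c) (p q : ℝ) :
    (IsPairFor σ P c p q →
      0 ≤ p ∧ 0 ≤ q ∧ 1 / 2 ≤ p + (P - 1) * q ∧ 1 / 2 ≤ (P - 1) * p + q) ∧
    (c < 1 → (P ≤ 3 ∨ p ≤ 1 / ((2 : ℝ) ^ P - 2)) →
      0 ≤ p → 0 ≤ q → 1 / 2 ≤ p + (P - 1) * q → 1 / 2 ≤ (P - 1) * p + q →
      IsPairFor σ P c p q) :=
  ((FD39.main σ P hσ hP).2 c hc).2 p q

end Pool.Agent.Results.MP_493793_nt.FixedDerivativeOrder
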