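import Pool.Agent.H76.EPLog

set_option autoImplicit false

namespace Pool.Agent.Results.MP_493793_nt.NearZetaPhases

open Real

/-- The sign pattern `+, +, -, +, -, ...` of the derivatives of order `0, 1, 2, 3, 4, ...`. -/
def sgn (j : ℕ) : ℝ := if j = 0 then 1 else (-1) ^ (j + 1)

/-- `f` is admissible at scale `N` with parameter `F ≥ N` as in the problem, for the constants
`c j, C j`, and moreover its derivatives have the alternating sign pattern `sgn`: `f` is smooth on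
`[N, 2N]` and `c_j F N^(-j) ≤ sgn j * f^(j)(x) ≤ C_j F N^(-j)` for every `j ≥ 0` and
`x ∈ [N, 2N]`. -/
def AltAdmissible (c C : ℕ → ℝ) (N F : ℝ) (f : ℝ → ℝ) : Prop :=
  N ≤ F ∧ ContDiffOn ℝ (⊤ : ℕ∞) f (Set.Icc N (2 * N)) ∧
    ∀ j : ℕ, ∀ x ∈ Set.Icc N (2 * N),
      c j * F / N ^ j ≤ sgn j * iteratedDerivWithin j f (Set.Icc N (2 * N)) x ∧
      sgn j * iteratedDerivWithin j f (Set.Icc N (2 * N)) x ≤ C j * F / N ^ j

/-- Admissibility exactly as in the problem (no condition on the signs). -/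
def Admissible (c C : ℕ → ℝ) (N F : ℝ) (f : ℝ → ℝ) : Prop :=
  N ≤ F ∧ ContDiffOn ℝ (⊤ : ℕ∞) f (Set.Icc N (2 * N)) ∧
    ∀ j : ℕ, ∀ x ∈ Set.Icc N (2 * N),
      c j * F / N ^ j ≤ |iteratedDerivWithin j f (Set.Icc N (2 * N)) x| ∧
      |iteratedDerivWithin j f (Set.Icc N (2 * N)) x| ≤ C j * F / N ^ j

/-- Phases admissible in the sense of this file are admissible in the sense of the problem. -/
lemma AltAdmissible.admissible {c C : ℕ → ℝ} (hc : ∀ j, 0 < c j) {N F : ℝ} {f : ℝ → ℝ}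
    (hN : 0 < N) (h : AltAdmissible c C N F f) : Admissible c C N F f := by
  refine ⟨h.1, h.2.1, fun j x hx => ?_⟩
  obtain ⟨h1, h2⟩ := h.2.2 j x hx
  have h0 : 0 < sgn j * iteratedDerivWithin j f (Set.Icc N (2 * N)) x := by
    have hF : 0 < F := lt_of_lt_of_le hN h.1
    have : 0 < c j * F / N ^ j := div_pos (mul_pos (hc j) hF) (pow_pos hN j)
    linarith
  have hs : |sgn j| = 1 := by
    unfold sgn
    split_ifs
    · simp
    · rw [abs_pow]; simp
  have h3 : |iteratedDerivWithin j f (Set.Icc N (2 * N)) x| =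
      sgn j * iteratedDerivWithin j f (Set.Icc N (2 * N)) x := by
    rw [← abs_of_pos h0, abs_mul, hs, one_mul]
  rw [h3]
  exact ⟨h1, h2⟩

/-- `f` is close to the phase `F log x` of the zeta function: for `0 ≤ j < P` the derivative of
order `j + 1` differs from that of `F log x`, which is `(-1)^j j! F x^(-j-1)`, by less than
`η j! F x^(-j-1)`. (This is the condition of Graham and Kolesnik with `s = 1` and `y = F`.) -/
def NearLog (P : ℕ) (η N F : ℝ) (f : ℝ → ℝ) : Prop :=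
  ∀ j < P, ∀ x ∈ Set.Icc N (2 * N),
    |iteratedDerivWithin (j + 1) f (Set.Icc N (2 * N)) x -
        (-1) ^ j * ((j.factorial : ℝ) * F / x ^ (j + 1))| <
      η * ((j.factorial : ℝ) * F / x ^ (j + 1))

/-- `(p, q)` is an exponent pair for the phases that are admissible as in the problem, have
alternating derivatives, and are close to `F log x` to order `P` with closeness `η`. -/
def IsPairFor (P : ℕ) (η p q : ℝ) : Prop :=
  ∀ ε : ℝ, 0 < ε → ∀ c C : ℕ → ℝ, (∀ j, 0 < c j) → (∀ j, 0 < C j) →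
    ∃ K : ℝ, ∀ N N' F : ℝ, ∀ f : ℝ → ℝ, 2 ≤ N → N ≤ N' → N' ≤ 2 * N →
      AltAdmissible c C N F f → NearLog P η N F f →
      ‖∑ n ∈ Finset.Icc ⌈N⌉₊ ⌊N'⌋₊,
          Complex.exp (2 * (Real.pi : ℂ) * Complex.I * ((f (n : ℝ) : ℝ) : ℂ))‖
        ≤ K * F ^ p * N ^ (q - p + 1 / 2) * F ^ ε

open Pool.Agent.H76.EP in
/-- For every `P` and every `η > 0` there is `D` such that every exponent pair for the phases
that are admissible, have alternating derivatives and are `η`-close to `F log x` to order `P`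
satisfies `p + D q ≥ 1/2`. In particular `(0, 0)` is not an exponent pair for these phases. -/
theorem result (P : ℕ) (η : ℝ) (hη : 0 < η) :
    (∃ D : ℕ, ∀ p q : ℝ, IsPairFor P η p q → 1 / 2 ≤ p + D * q) ∧ ¬ IsPairFor P η 0 0 := by
  suffices hmain : ∃ D : ℕ, ∀ p q : ℝ, IsPairFor P η p q → 1 / 2 ≤ p + D * q by
    refine ⟨hmain, fun h => ?_⟩
    obtain ⟨D, hD⟩ := hmain
    have := hD 0 0 h
    norm_num at this
  -- choice of `r`
  set ε0 : ℝ := min (1 / 8) (η / 4 ^ (P + 1)) with hε0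
  have hε0pos : 0 < ε0 := by rw [hε0]; positivity
  obtain ⟨r, hr⟩ := (psi_close (P + 1) hε0pos).exists
  have hg3 : gg r 3 < 1 := by
    have h1 := hr 0 (by omega) 3 ⟨by norm_num, le_rfl⟩
    have h2 := h1.trans_le (min_le_left _ _)
    simp only [psi, lim, iteratedDeriv_zero, zero_add, pow_one, if_true] at h2
    rw [abs_lt] at h2
    linarith [h2.1]
  have hg1 : 0 < gg r 1 := gg_pos r one_pos
  have hg13 : gg r 1 < gg r 3 := gg_lt r one_pos (by norm_num)
  obtain ⟨Q, hQ0, hQ⟩ := exists_Q r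
  have hQR : (0 : ℝ) < Q := by exact_mod_cast hQ0
  have hQ1 : (1 : ℝ) ≤ Q := by exact_mod_cast hQ0
  have hp3 : 0 < psi r 1 3 := psi_pos r 0 (by norm_num)
  have hp1 : psi r 1 3 ≤ psi r 1 1 := psi_anti r 1 one_pos (by norm_num)
  set D : ℕ := DD r with hD
  have hD2 : 2 ≤ D := by
    rw [hD, DD, pow_succ]
    have : 0 < 2 ^ r := by positivity
    omega
  have hD2R : (2 : ℝ) ≤ D := by exact_mod_cast hD2
  refine ⟨D, fun p q h => ?_⟩
  by_contra hcon
  push Not at hcon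
  set δ : ℝ := 1 / 2 - (p + D * q) with hδ
  have hδ0 : 0 < δ := by rw [hδ]; linarith
  -- the additive constant
  obtain ⟨E, hE⟩ : ∃ E : ℝ, ∀ t ∈ Set.Icc (1 : ℝ) 3, ‖hh r t / 2‖ ≤ E := by
    apply isCompact_Icc.exists_bound_of_continuousOn
    exact ((hh_contDiffOn r).continuousOn.mono
      (fun t ht => lt_of_lt_of_le one_pos ht.1)).div_const 2
  obtain ⟨C0, hC0⟩ := exists_nat_gt (E + 1)
  have hE0 : 0 ≤ E := (norm_nonneg _).trans (hE 1 ⟨le_rfl, by norm_num⟩)
  -- the constants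
  set cc : ℕ → ℝ := fun j => if j = 0 then 2 else if j = 1 then 2 * (1 - gg r 3) else
    2 ^ j * psi r (j - 1) 3 with hcc
  set CC : ℕ → ℝ := fun j => if j = 0 then 2 * (C0 + E) else if j = 1 then 2 else
    2 ^ j * psi r (j - 1) 1 with hCC
  have hccpos : ∀ j, 0 < cc j := by
    intro j
    simp only [hcc]
    split_ifs with h0 h1
    · norm_num
    · linarith
    · obtain ⟨k, rfl⟩ : ∃ k, j = k + 2 := ⟨j - 2, by omega⟩
      have := psi_pos r k (t := 3) (by norm_num)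
      rw [show k + 2 - 1 = k + 1 by omega]
      positivity
  have hCCpos : ∀ j, 0 < CC j := by
    intro j
    simp only [hCC]
    split_ifs with h0 h1
    · have : (0 : ℝ) < C0 := by linarith
      linarith
    · norm_num
    · obtain ⟨k, rfl⟩ : ∃ k, j = k + 2 := ⟨j - 2, by omega⟩
      have := psi_pos r k (t := 1) (by norm_num)
      rw [show k + 2 - 1 = k + 1 by omega]
      positivity
  obtain ⟨K, hK⟩ := h (δ / (2 * (D + 1))) (by positivity) cc CC hccpos hCCpos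
  set ρ : ℝ := psi r 1 1 / psi r 1 3 with hρ
  have hρ1 : 1 ≤ ρ := by rw [hρ, le_div_iff₀ hp3]; linarith
  have hρ0 : 0 < ρ := by linarith
  -- constants of the final inequality
  set C1 : ℝ := (gg r 3 - gg r 1) / 2 * (1 / (320 * ρ ^ 3)) * √(Q / psi r 1 3) with hC1
  have hC1pos : 0 < C1 := by
    rw [hC1]
    have : 0 < gg r 3 - gg r 1 := by linarith
    positivity
  set C2 : ℝ := 2 * |K| * ((Q : ℝ) ^ (p + δ / (2 * (D + 1))) *
    (2 * Q : ℝ) ^ (q - p + 1 / 2)) with hC2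
  -- pick a large `M`
  have htend : Filter.Tendsto (fun M : ℕ => (M : ℝ) ^ (δ / 2)) Filter.atTop Filter.atTop :=
    (tendsto_rpow_atTop (by positivity : 0 < δ / 2)).comp (tendsto_natCast_atTop_atTop (R := ℝ))
  have htend2 : Filter.Tendsto (fun M : ℕ => (M : ℝ)) Filter.atTop Filter.atTop :=
    tendsto_natCast_atTop_atTop
  obtain ⟨M, hM2, hMbig, hMg, hMs⟩ := ((Filter.eventually_ge_atTop 2).and
    ((htend.eventually_gt_atTop (C2 / C1)).and
      ((htend2.eventually_gt_atTop (6 / (gg r 3 - gg r 1))).and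
        (htend2.eventually_gt_atTop ((960 * ρ ^ 3) ^ 2 * (psi r 1 3 / Q)))))).exists
  have hM2R : (2 : ℝ) ≤ M := by exact_mod_cast hM2
  have hM0 : (0 : ℝ) < M := by linarith
  have hM1 : (1 : ℝ) ≤ M := by linarith
  have hMN0 : 0 < M := by omega
  set N : ℝ := 2 * Q * (M : ℝ) ^ D with hN
  have hMD : (1 : ℝ) ≤ (M : ℝ) ^ D := one_le_pow₀ hM1
  have hN2 : 2 ≤ N := by
    rw [hN]
    have : 1 * 1 ≤ (Q : ℝ) * (M : ℝ) ^ D := mul_le_mul hQ1 hMD (by norm_num) (by linarith)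
    linarith
  have hN0 : 0 < N := by linarith
  set F : ℝ := M * N / 2 with hF
  have hF0 : 0 < F := by rw [hF]; positivity
  have hNF : N ≤ F := by rw [hF]; nlinarith
  -- the parameter `s`
  have hMDr : (M : ℝ) ^ D = (M : ℝ) ^ (D : ℝ) := (Real.rpow_natCast _ _).symm
  have hMN : (M : ℝ) / N = (M : ℝ) ^ (1 - (D : ℝ)) / (2 * Q) := by
    rw [hN, hMDr, Real.rpow_sub hM0, Real.rpow_one]
    field_simp
  set s : ℝ := √(psi r 1 3 / Q) * (M : ℝ) ^ ((1 - (D : ℝ)) / 2) with hs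
  have hs0 : 0 < s := by rw [hs]; positivity
  have hs2 : s ^ 2 = 2 * M * psi r 1 3 / N := by
    have e1 : 2 * (M : ℝ) * psi r 1 3 / N = 2 * psi r 1 3 * (M / N) := by ring
    rw [e1, hMN, hs, mul_pow, Real.sq_sqrt (by positivity), ← Real.rpow_natCast,
      ← Real.rpow_mul hM0.le]
    push_cast
    rw [show (1 - (D : ℝ)) / 2 * 2 = 1 - D by ring]
    field_simp
  have hsa : 960 * ρ ^ 3 * s ≤ 1 := by
    have h1 : (960 * ρ ^ 3 * s) ^ 2 ≤ 1 ^ 2 := by
      rw [mul_pow, hs2]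
      have e1 : 2 * (M : ℝ) * psi r 1 3 / N = 2 * psi r 1 3 * (M / N) := by ring
      rw [e1, hMN]
      have h2 : (M : ℝ) ^ (1 - (D : ℝ)) ≤ 1 / M := by
        rw [← Real.rpow_neg_one (M : ℝ) |> fun h => (by rw [h, one_div] : (M : ℝ) ^ (-1 : ℝ) = 1 / M)]
        exact Real.rpow_le_rpow_of_exponent_le hM1 (by linarith)
      have h3 : (960 * ρ ^ 3) ^ 2 * (2 * psi r 1 3 * ((M : ℝ) ^ (1 - (D : ℝ)) / (2 * Q))) ≤
          (960 * ρ ^ 3) ^ 2 * (2 * psi r 1 3 * ((1 / M) / (2 * Q))) := by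
        apply mul_le_mul_of_nonneg_left _ (by positivity)
        apply mul_le_mul_of_nonneg_left _ (by positivity)
        exact div_le_div_of_nonneg_right h2 (by positivity)
      refine h3.trans ?_
      have e2 : (960 * ρ ^ 3) ^ 2 * (2 * psi r 1 3 * ((1 / (M : ℝ)) / (2 * Q))) =
          ((960 * ρ ^ 3) ^ 2 * (psi r 1 3 / Q)) / M := by field_simp
      rw [e2, one_pow, div_le_one hM0]
      exact hMs.le
    exact (pow_le_pow_iff_left₀ (by positivity) (by norm_num) (by norm_num)).1 h1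
  -- the blocks
  set k0 : ℕ := ⌈gg r 1 * (M : ℝ) + 1 / 2⌉₊ with hk0
  have hk1 : gg r 1 * (M : ℝ) + 1 / 2 ≤ k0 := Nat.le_ceil _
  have hk2 : (k0 : ℝ) < gg r 1 * M + 1 / 2 + 1 := Nat.ceil_lt_add_one (by positivity)
  have hMg' : 6 < (gg r 3 - gg r 1) * (M : ℝ) := by
    rw [div_lt_iff₀ (by linarith)] at hMg
    linarith
  set L : ℕ := ⌊(gg r 3 - gg r 1) * (M : ℝ) - 1⌋₊ with hLdef
  have hL1 : (L : ℝ) ≤ (gg r 3 - gg r 1) * M - 1 := Nat.floor_le (by linarith)
  have hL2 : (gg r 3 - gg r 1) * (M : ℝ) - 1 < L + 1 := Nat.lt_floor_add_one _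
  have hLlow : (gg r 3 - gg r 1) / 2 * (M : ℝ) ≤ L := by linarith
  obtain ⟨u, v, hNu, huv, hv2, hlow⟩ := stage2 r Q M k0 L C0 hQ0 hQ hMN0 N s ρ hN hs0 hs2 hρ hsa hk1
    (by linarith)
  set f : ℝ → ℝ := ph r M N C0 with hf
  have hcd : ContDiffOn ℝ (⊤ : ℕ∞) f (Set.Icc N (2 * N)) := by
    intro x hx
    exact (ph_contDiffAt r M N C0 (tpos hN0 hx.1)).contDiffWithinAt
  have hwithin : ∀ j : ℕ, ∀ x ∈ Set.Icc N (2 * N),
      iteratedDerivWithin j f (Set.Icc N (2 * N)) x = iteratedDeriv j f x := by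
    intro j x hx
    exact iteratedDerivWithin_eq_iteratedDeriv (uniqueDiffOn_Icc (by linarith))
      ((ph_contDiffAt r M N C0 (tpos hN0 hx.1)).of_le (by exact_mod_cast le_top)) hx
  have hadm : AltAdmissible cc CC N F f := by
    refine ⟨hNF, hcd, fun j x hx => ?_⟩
    have ht := t_mem hN0 hx
    have htp : 0 < 2 / N * x - 1 := tpos hN0 hx.1
    rw [hwithin j x hx]
    rcases Nat.eq_zero_or_pos j with hj | hj
    · subst hj
      simp only [hcc, hCC, sgn, if_true, iteratedDeriv_zero, pow_zero, div_one, one_mul]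
      have h1 := hE _ ht
      rw [Real.norm_eq_abs, abs_le] at h1
      have h2 : f x = 2 * F * (C0 + hh r (2 / N * x - 1) / 2) := by
        simp only [hf, ph, hF]; ring
      rw [h2]
      have hF2 : 0 < 2 * F := by linarith
      constructor
      · nlinarith [h1.1]
      · have h3 : 2 * F * (C0 + hh r (2 / N * x - 1) / 2) ≤ 2 * F * (C0 + E) :=
          mul_le_mul_of_nonneg_left (by linarith [h1.2]) hF2.le
        linarith
    · obtain ⟨k, rfl⟩ : ∃ k, j = k + 1 := ⟨j - 1, by omega⟩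
      rw [hf, ph_iter r M N C0 k hN0 htp]
      have hsg : sgn (k + 1) = (-1) ^ k := by
        unfold sgn
        rw [if_neg (Nat.succ_ne_zero k), pow_succ, pow_succ]; ring
      rw [hsg]
      have hFN : F / N ^ (k + 1) = M / (2 * N ^ k) := by
        rw [hF, pow_succ]; field_simp
      rw [mul_div_assoc, mul_div_assoc, hFN]
      rcases Nat.eq_zero_or_pos k with hk | hk
      · subst hk
        simp only [hcc, hCC, zero_add, one_ne_zero, if_false, if_true, pow_zero, mul_one, one_mul]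
        have e1 : 1 + psi r 0 (2 / N * x - 1) = 1 - gg r (2 / N * x - 1) := by
          simp only [psi, iteratedDeriv_zero, zero_add, pow_one]; ring
        rw [e1]
        have h1 := gg_mono r (s := 2 / N * x - 1) (t := 3) htp ht.2
        have h2 := gg_pos r htp
        constructor
        · have h3 : (M : ℝ) * (1 - gg r 3) ≤ M * (1 - gg r (2 / N * x - 1)) :=
            mul_le_mul_of_nonneg_left (by linarith) hM0.le
          linarith
        · have h3 : (M : ℝ) * (1 - gg r (2 / N * x - 1)) ≤ M * 1 :=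
            mul_le_mul_of_nonneg_left (by linarith) hM0.le
          linarith
      · have hk1' : k + 1 ≠ 1 := by omega
        simp only [hcc, hCC, Nat.succ_ne_zero, if_false, if_neg hk1', Nat.add_sub_cancel,
          if_neg (show k ≠ 0 by omega), zero_add]
        have e1 : (-1 : ℝ) ^ k * (M * ((2 / N) ^ k * ((-1) ^ k * psi r k (2 / N * x - 1)))) =
            (M * (2 / N) ^ k) * psi r k (2 / N * x - 1) := by
          have : (-1 : ℝ) ^ k * (-1) ^ k = 1 := by
            rw [← pow_add, ← two_mul, pow_mul]; simp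
          calc (-1 : ℝ) ^ k * (M * ((2 / N) ^ k * ((-1) ^ k * psi r k (2 / N * x - 1))))
              = ((-1 : ℝ) ^ k * (-1) ^ k) * ((M * (2 / N) ^ k) * psi r k (2 / N * x - 1)) := by ring
            _ = _ := by rw [this, one_mul]
        have e2 : ∀ z : ℝ, 2 ^ (k + 1) * z * (M / (2 * N ^ k)) = (M * (2 / N) ^ k) * z := by
          intro z; rw [div_pow, pow_succ]; field_simp
        rw [e1, e2, e2]
        have h1 := psi_anti r k htp ht.2
        have h2 := psi_anti r k one_pos ht.1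
        exact ⟨mul_le_mul_of_nonneg_left h1 (by positivity),
          mul_le_mul_of_nonneg_left h2 (by positivity)⟩
  have hnear : NearLog P η N F f := by
    intro j hj x hx
    have ht := t_mem hN0 hx
    have htp : 0 < 2 / N * x - 1 := tpos hN0 hx.1
    have hx0 : 0 < x := lt_of_lt_of_le hN0 hx.1
    rw [hwithin (j + 1) x hx, hf, ph_iter r M N C0 j hN0 htp]
    set t : ℝ := 2 / N * x - 1 with htdef
    have hxt : x = N * (1 + t) / 2 := by rw [htdef]; field_simp; ring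
    have h1t : 0 < 1 + t := by linarith
    have e1 : F / x ^ (j + 1) = (M * (2 / N) ^ j) * (1 / (1 + t) ^ (j + 1)) := by
      rw [hxt, hF, div_pow, div_pow, mul_pow, pow_succ 2 j, pow_succ N j]
      field_simp
    have e2 : (j.factorial : ℝ) * F / x ^ (j + 1) =
        (M * (2 / N) ^ j) * ((j.factorial : ℝ) / (1 + t) ^ (j + 1)) := by
      rw [mul_div_assoc, e1]; ring
    have e3 : (if j = 0 then (1 : ℝ) else 0) + (-1) ^ j * lim j t =
        (-1) ^ j * ((j.factorial : ℝ) / (1 + t) ^ (j + 1)) := by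
      unfold lim
      split_ifs with h0
      · subst h0
        simp only [pow_zero, one_mul, Nat.factorial_zero, Nat.cast_one, zero_add, pow_one]
        field_simp
        ring
      · rw [zero_add]
    have e4 : (M : ℝ) * ((2 / N) ^ j * ((if j = 0 then 1 else 0) + (-1) ^ j * psi r j t)) -
        (-1) ^ j * ((j.factorial : ℝ) * F / x ^ (j + 1)) =
        (M * (2 / N) ^ j) * ((-1) ^ j * (psi r j t - lim j t)) := by
      rw [e2]
      have : (-1 : ℝ) ^ j * ((M * (2 / N) ^ j) * ((j.factorial : ℝ) / (1 + t) ^ (j + 1))) =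
          (M * (2 / N) ^ j) * ((-1) ^ j * ((j.factorial : ℝ) / (1 + t) ^ (j + 1))) := by ring
      rw [this, ← e3]
      ring
    have e6 : |(M * (2 / N) ^ j) * ((-1) ^ j * (psi r j t - lim j t))| =
        (M * (2 / N) ^ j) * |psi r j t - lim j t| := by
      rw [abs_mul, abs_of_pos (by positivity : 0 < M * (2 / N) ^ j), abs_mul, abs_pow, abs_neg,
        abs_one, one_pow, one_mul]
    rw [e4, e6, e2]
    have h1 := (hr j (by omega) t ht).trans_le (min_le_right _ _)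
    have h2 : η / 4 ^ (P + 1) ≤ η * ((j.factorial : ℝ) / (1 + t) ^ (j + 1)) := by
      rw [div_eq_mul_inv]
      apply mul_le_mul_of_nonneg_left _ hη.le
      have h3 : (1 : ℝ) ≤ j.factorial := by exact_mod_cast Nat.factorial_pos j
      have h4 : (1 + t) ^ (j + 1) ≤ 4 ^ (P + 1) := by
        calc (1 + t) ^ (j + 1) ≤ 4 ^ (j + 1) := pow_le_pow_left₀ h1t.le (by linarith [ht.2]) _
          _ ≤ 4 ^ (P + 1) := pow_le_pow_right₀ (by norm_num) (by omega)
      rw [inv_eq_one_div]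
      exact div_le_div₀ (by linarith) h3 (by positivity) h4
    have h5 := h1.trans_le h2
    calc (M * (2 / N) ^ j) * |psi r j t - lim j t|
        < (M * (2 / N) ^ j) * (η * ((j.factorial : ℝ) / (1 + t) ^ (j + 1))) :=
          mul_lt_mul_of_pos_left h5 (by positivity)
      _ = _ := by ring
  have hbv := hK N v F f hN2 (hNu.trans huv) hv2 hadm hnear
  have hbu := hK N u F f hN2 hNu (huv.trans hv2) hadm hnear
  have hFr : F = Q * (M : ℝ) ^ ((D : ℝ) + 1) := by
    rw [hF, hN, Real.rpow_add hM0, Real.rpow_one, ← hMDr]; ring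
  have hNr : N = 2 * Q * (M : ℝ) ^ (D : ℝ) := by rw [hN, hMDr]
  have hrhs : 2 * (K * F ^ p * N ^ (q - p + 1 / 2) * F ^ (δ / (2 * (D + 1)))) ≤
      C2 * (M : ℝ) ^ (((D : ℝ) + 1) / 2 - δ / 2) := by
    have e1 : F ^ p * F ^ (δ / (2 * (D + 1))) =
        (Q : ℝ) ^ (p + δ / (2 * (D + 1))) *
          (M : ℝ) ^ (((D : ℝ) + 1) * (p + δ / (2 * (D + 1)))) := by
      rw [← Real.rpow_add hF0, hFr, Real.mul_rpow (by positivity) (by positivity),
        ← Real.rpow_mul hM0.le]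
    have e2 : N ^ (q - p + 1 / 2) =
        (2 * Q : ℝ) ^ (q - p + 1 / 2) * (M : ℝ) ^ ((D : ℝ) * (q - p + 1 / 2)) := by
      rw [hNr, Real.mul_rpow (by positivity) (by positivity), ← Real.rpow_mul hM0.le]
    have e3 : (M : ℝ) ^ (((D : ℝ) + 1) / 2 - δ / 2) =
        (M : ℝ) ^ (((D : ℝ) + 1) * (p + δ / (2 * (D + 1)))) *
        (M : ℝ) ^ ((D : ℝ) * (q - p + 1 / 2)) := by
      rw [← Real.rpow_add hM0]
      congr 1
      have : ((D : ℝ) + 1) * (p + δ / (2 * (D + 1))) = (D + 1) * p + δ / 2 := by field_simp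
      rw [this, hδ]; ring
    have e4 : 2 * (K * F ^ p * N ^ (q - p + 1 / 2) * F ^ (δ / (2 * (D + 1)))) =
        2 * K * ((F ^ p * F ^ (δ / (2 * (D + 1)))) * N ^ (q - p + 1 / 2)) := by ring
    rw [e4, e1, e2, e3, hC2]
    have hpos : 0 ≤ ((Q : ℝ) ^ (p + δ / (2 * (D + 1))) *
          (M : ℝ) ^ (((D : ℝ) + 1) * (p + δ / (2 * (D + 1))))) *
        ((2 * Q : ℝ) ^ (q - p + 1 / 2) * (M : ℝ) ^ ((D : ℝ) * (q - p + 1 / 2))) := by positivity
    calc 2 * K * (((Q : ℝ) ^ (p + δ / (2 * (D + 1))) *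
          (M : ℝ) ^ (((D : ℝ) + 1) * (p + δ / (2 * (D + 1))))) *
        ((2 * Q : ℝ) ^ (q - p + 1 / 2) * (M : ℝ) ^ ((D : ℝ) * (q - p + 1 / 2))))
        ≤ 2 * |K| * (((Q : ℝ) ^ (p + δ / (2 * (D + 1))) *
          (M : ℝ) ^ (((D : ℝ) + 1) * (p + δ / (2 * (D + 1))))) *
        ((2 * Q : ℝ) ^ (q - p + 1 / 2) * (M : ℝ) ^ ((D : ℝ) * (q - p + 1 / 2)))) := by
          apply mul_le_mul_of_nonneg_right _ hpos
          have := le_abs_self K
          linarith
      _ = _ := by ring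
  have hlhs : C1 * (M : ℝ) ^ (((D : ℝ) + 1) / 2) ≤ L * (1 / (320 * ρ ^ 3 * s)) := by
    have e1 : 1 / s = √(Q / psi r 1 3) * (M : ℝ) ^ (((D : ℝ) - 1) / 2) := by
      rw [hs, one_div, mul_inv, ← Real.rpow_neg hM0.le, ← Real.sqrt_inv, inv_div]
      congr 2; ring
    have e2 : 1 / (320 * ρ ^ 3 * s) = 1 / (320 * ρ ^ 3) * (1 / s) := by field_simp
    rw [e2, e1]
    have e3 : (M : ℝ) ^ (((D : ℝ) + 1) / 2) = M * (M : ℝ) ^ (((D : ℝ) - 1) / 2) := by
      rw [← Real.rpow_one_add' hM0.le (by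
        have : 0 < ((D : ℝ) - 1) / 2 := by linarith
        linarith)]
      congr 1; ring
    rw [e3, hC1]
    calc (gg r 3 - gg r 1) / 2 * (1 / (320 * ρ ^ 3)) * √(Q / psi r 1 3) *
        (M * (M : ℝ) ^ (((D : ℝ) - 1) / 2))
        = ((gg r 3 - gg r 1) / 2 * M) * (1 / (320 * ρ ^ 3) * (√(Q / psi r 1 3) *
            (M : ℝ) ^ (((D : ℝ) - 1) / 2))) := by ring
      _ ≤ L * (1 / (320 * ρ ^ 3) * (√(Q / psi r 1 3) * (M : ℝ) ^ (((D : ℝ) - 1) / 2))) :=
          mul_le_mul_of_nonneg_right hLlow (by positivity)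
  have hfin : C1 * (M : ℝ) ^ (((D : ℝ) + 1) / 2) ≤
      C2 * (M : ℝ) ^ (((D : ℝ) + 1) / 2 - δ / 2) := by
    have h1 : ‖∑ k ∈ Finset.Icc ⌈N⌉₊ ⌊v⌋₊, ex (f (k : ℝ))‖ +
        ‖∑ k ∈ Finset.Icc ⌈N⌉₊ ⌊u⌋₊, ex (f (k : ℝ))‖ ≤
        2 * (K * F ^ p * N ^ (q - p + 1 / 2) * F ^ (δ / (2 * (D + 1)))) := by
      refine (add_le_add hbv hbu).trans ?_
      linarith
    exact hlhs.trans (hlow.trans (h1.trans hrhs))
  have e5 : (M : ℝ) ^ (((D : ℝ) + 1) / 2) =
      (M : ℝ) ^ (δ / 2) * (M : ℝ) ^ (((D : ℝ) + 1) / 2 - δ / 2) := by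
    rw [← Real.rpow_add hM0]; congr 1; ring
  have h6 : 0 < (M : ℝ) ^ (((D : ℝ) + 1) / 2 - δ / 2) := by positivity
  rw [e5, ← mul_assoc] at hfin
  have h7 := le_of_mul_le_mul_right hfin h6
  rw [div_lt_iff₀ hC1pos] at hMbig
  linarith

end Pool.Agent.Results.MP_493793_nt.NearZetaPhases
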