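import Pool.Agent.H39.FD.Stb

set_option autoImplicit false

namespace Pool.Agent.Results.MP_493793_nt.NearbyPhases

/-- `e(x) = exp(2 π i x)`. -/
noncomputable def e (x : ℝ) : ℂ := Complex.exp (2 * (Real.pi : ℂ) * Complex.I * ((x : ℝ) : ℂ))

/-- `M_P(N, D) = min (D^(1/2), N^(1/2) D^(1/(2P)), N)`. -/
noncomputable def size (P : ℕ) (N D : ℝ) : ℝ :=
  min (min (√D) (√N * D ^ (1 / (2 * (P : ℝ))))) N

/-- Near every real sequence `u` there are phases `u + g`, with the derivatives of `g` of the orders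
`1, ..., P` at most `D N^(-j)`, whose exponential sum over `[N, 2N]` is at least
`κ M_P(N, D) / log N`; for `u = 9 D log n` all such sums are at most `K M_{min(P,3)}(N, D)`. -/
theorem result (P : ℕ) (hP : 2 ≤ P) :
    (∃ κ : ℝ, 0 < κ ∧ ∀ (N : ℕ) (D : ℝ) (u : ℕ → ℝ), 1 / κ ≤ N → N / κ ≤ D →
      ∃ g : ℝ → ℝ, ContDiff ℝ (⊤ : ℕ∞) g ∧
        (∀ j < P, ∀ x ∈ Set.Icc (N : ℝ) (2 * N),
          |iteratedDeriv (j + 1) g x| ≤ D / (N : ℝ) ^ (j + 1)) ∧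
        κ * size P N D / Real.log N ≤ ‖∑ n ∈ Finset.Icc N (2 * N), e (u n + g n)‖) ∧
    (∃ K : ℝ, ∀ (N : ℕ) (D : ℝ), 2 ≤ N → (N : ℝ) ≤ D →
      ∀ g : ℝ → ℝ, ContDiff ℝ (⊤ : ℕ∞) g →
        (∀ j < P, ∀ x ∈ Set.Icc (N : ℝ) (2 * N),
          |iteratedDeriv (j + 1) g x| ≤ D / (N : ℝ) ^ (j + 1)) →
        ‖∑ n ∈ Finset.Icc N (2 * N), e (9 * D * Real.log n + g n)‖ ≤ K * size (min P 3) N D) :=
  ⟨FD39.lowerG hP, FD39.stable_upper hP⟩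

end Pool.Agent.Results.MP_493793_nt.NearbyPhases
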